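import Mathlib

namespace Pool.Agent.Results.MP_2568f3_co.Cex

open Finset

/-- the sum of the `j` first terms of the non-decreasing rearrangement of `c` -/
def low {k : ℕ} (c : Fin k → ℕ) (j : ℕ) : ℕ :=
  (((List.ofFn c).insertionSort (· ≤ ·)).take j).sum

/-- degree of the vertex `v` of the side `V` in the subgraph `F` of `K_{n,n}`; an edge is a pair
(vertex of `U`, vertex of `V`) -/
def deg {n : ℕ} (F : Finset (Fin n × Fin n)) (v : Fin n) : ℕ := (F.filter (fun e => e.2 = v)).card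

def F0 : Fin 3 → Finset (Fin 5 × Fin 5) :=
  ![{(0, 0)}, univ.filter (fun e => e.2 = 0 ∨ e.1 < 2), univ.filter (fun e => e.2 = 0 ∨ e.1 < 3)]

theorem result : ¬ ∀ (k n : ℕ), 1 ≤ k → 1 ≤ n → ∀ F : Fin k → Finset (Fin n × Fin n),
    (∀ j, 1 ≤ j → j ≤ k → j * (j - 1) * n < low (fun i => (F i).card) j) →
    ∃ u : Fin k → Fin n, Function.Injective u ∧
      ∀ j, 1 ≤ j → j ≤ k → j * (j - 1) < low (fun i => deg (F i) (u i)) j := by
  intro h
  obtain ⟨u, hu, h2⟩ := h 3 5 (by decide) (by decide) F0 (by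
    intro j h1 h2
    interval_cases j <;> decide +kernel)
  have key : ∀ a b c : Fin 5, b ≠ a → c ≠ a →
      ¬ (1 * (1 - 1) < low (fun i => deg (F0 i) (![a, b, c] i)) 1 ∧
        3 * (3 - 1) < low (fun i => deg (F0 i) (![a, b, c] i)) 3) := by decide +kernel
  have e : u = ![u 0, u 1, u 2] := by
    funext i; fin_cases i <;> rfl
  apply key (u 0) (u 1) (u 2) (hu.ne (by decide)) (hu.ne (by decide))
  rw [← e]
  exact ⟨h2 1 (by decide) (by decide), h2 3 (by decide) (by decide)⟩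

end Pool.Agent.Results.MP_2568f3_co.Cex
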